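import Mathlib

/-!
# A radio graceful Cartesian product with a factor that is not radio graceful

`G` is a graph on `13` vertices: a complete tripartite graph `K_{4,4,4}` together with a vertex
`0` joined to one vertex of each part.  It has diameter `2`, and it is not radio graceful since
`0` is a cut vertex of the complement whose removal leaves three components, so the complement
has no Hamiltonian path.  But `G □ K₃` is radio graceful.
-/

set_option autoImplicit false

namespace Pool.Agent.Results.MP_ce2a64_co.FactorNotRadioGraceful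

open SimpleGraph

/-- `G` has a radio graceful labeling: a map `f : V → ℕ` with
`|f u - f v| ≥ diam G + 1 - d(u,v)` for distinct `u, v`, whose set of values is
`{0, …, |V| - 1}`. -/
def RadioGraceful {V : Type} (G : SimpleGraph V) : Prop :=
  ∃ f : V → ℕ,
    (∀ u v, u ≠ v → (G.diam : ℤ) + 1 - (G.dist u v : ℤ) ≤ |(f u : ℤ) - (f v : ℤ)|) ∧
    Set.range f = {k : ℕ | k < Nat.card V}

/-- the part of a vertex: `0` for the special vertex, `1`, `2`, `3` for the other ones -/
def part (v : Fin 13) : ℕ := (v.val + 3) / 4

/-- adjacency of the graph `G` as a Boolean function -/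
def adjB (u v : Fin 13) : Bool :=
  if u.val = 0 then (v.val == 1 || v.val == 5 || v.val == 9)
  else if v.val = 0 then (u.val == 1 || u.val == 5 || u.val == 9)
  else part u != part v

/-- the graph `G` -/
def G : SimpleGraph (Fin 13) where
  Adj u v := adjB u v = true
  symm := ⟨by decide +kernel⟩
  loopless := ⟨by decide +kernel⟩

instance : DecidableRel G.Adj := fun u v => inferInstanceAs (Decidable (adjB u v = true))

theorem common : ∀ u v : Fin 13, u ≠ v → ¬ G.Adj u v → ∃ w, G.Adj u w ∧ G.Adj w v := by
  decide +kernel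

theorem conn : G.Connected := by
  refine ⟨fun u v => ?_⟩
  by_cases huv : u = v
  · subst huv; exact Reachable.refl _
  by_cases h : G.Adj u v
  · exact h.reachable
  · obtain ⟨w, h1, h2⟩ := common u v huv h
    exact h1.reachable.trans h2.reachable

theorem dist_le_two (u v : Fin 13) : G.dist u v ≤ 2 := by
  by_cases huv : u = v
  · subst huv; simp
  by_cases h : G.Adj u v
  · rw [dist_eq_one_iff_adj.2 h]; norm_num
  · obtain ⟨w, h1, h2⟩ := common u v huv h
    have := dist_le (Walk.cons h1 (Walk.cons h2 Walk.nil))
    simpa using this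

/-- the distance of `G` -/
def dG (u v : Fin 13) : ℕ := if u = v then 0 else if adjB u v = true then 1 else 2

theorem dist_G (u v : Fin 13) : G.dist u v = dG u v := by
  unfold dG
  by_cases huv : u = v
  · subst huv; simp
  rw [if_neg huv]
  by_cases h : adjB u v = true
  · rw [if_pos h]
    exact dist_eq_one_iff_adj.2 h
  · rw [if_neg h]
    have h0 : G.dist u v ≠ 0 := by
      intro h0
      exact huv (conn.dist_eq_zero_iff.1 h0)
    have h1 : G.dist u v ≠ 1 := by
      intro h1
      exact h (dist_eq_one_iff_adj.1 h1)
    have h2 := dist_le_two u v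
    omega

theorem ediam_G : G.ediam ≠ ⊤ := connected_iff_ediam_ne_top.1 conn

theorem diam_G : G.diam = 2 := by
  apply le_antisymm
  · obtain ⟨u, v, h⟩ := G.exists_dist_eq_diam
    rw [← h]; exact dist_le_two u v
  · have h : G.dist 1 2 = 2 := by rw [dist_G]; decide +kernel
    rw [← h]
    exact dist_le_diam ediam_G

/-! ### `G` is not radio graceful -/

theorem nonadj_part : ∀ u v : Fin 13, u ≠ 0 → v ≠ 0 → adjB u v = false → part u = part v := by
  decide +kernel

theorem not_radioGraceful_G : ¬ RadioGraceful G := by
  rintro ⟨f, hf, hr⟩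
  have hcard : Nat.card (Fin 13) = 13 := by simp
  rw [hcard] at hr
  have hlt : ∀ v, f v < 13 := fun v => by
    have : f v ∈ Set.range f := ⟨v, rfl⟩
    rw [hr] at this; exact this
  have hsurj : ∀ k, k < 13 → ∃ v, f v = k := fun k hk => by
    have : k ∈ Set.range f := by rw [hr]; exact hk
    exact this
  have hcons : ∀ u v, f v = f u + 1 → adjB u v = false := by
    intro u v h
    by_contra hc
    have hadj : G.Adj u v := by
      have h2 : adjB u v = true := by simpa using hc
      exact h2
    have hne : u ≠ v := hadj.ne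
    have h1 := hf u v hne
    rw [diam_G, dist_eq_one_iff_adj.2 hadj, h] at h1
    push_cast at h1
    have : |(f u : ℤ) - ((f u : ℤ) + 1)| = 1 := by
      rw [show (f u : ℤ) - ((f u : ℤ) + 1) = -1 by ring]; norm_num
    rw [this] at h1
    norm_num at h1
  have hinj : Function.Injective f := by
    intro u v h
    by_contra hne
    have h1 := hf u v hne
    rw [diam_G, h, sub_self, abs_zero] at h1
    have h2 := dist_le_two u v
    have h3 : ((G.dist u v : ℕ) : ℤ) ≤ 2 := by exact_mod_cast h2
    push_cast at h1
    linarith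
  -- a run of labels avoiding the label of `0` stays in one part
  have hrun : ∀ (k : ℕ) (u v : Fin 13), f v = f u + k → u ≠ 0 → v ≠ 0 →
      (f 0 < f u ∨ f v < f 0) → part u = part v := by
    intro k
    induction k with
    | zero =>
      intro u v h _ _ _
      rw [hinj (by simpa using h : f v = f u)]
    | succ k ih =>
      intro u v h hu hv hside
      obtain ⟨w, hw⟩ := hsurj (f u + k) (by have := hlt v; omega)
      have hw0 : w ≠ 0 := by
        rintro rfl
        rcases hside with h1 | h1 <;> omega
      have h1 := ih u w hw hu hw0 (by rcases hside with h1 | h1 <;> [left; right] <;> omega)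
      have h2 := nonadj_part w v hw0 hv (hcons w v (by omega))
      rw [h1, h2]
  have hside : ∀ u v : Fin 13, u ≠ 0 → v ≠ 0 → (f 0 < f u ↔ f 0 < f v) → part u = part v := by
    intro u v hu hv h
    have hu' : f u ≠ f 0 := fun h => hu (hinj h)
    have hv' : f v ≠ f 0 := fun h => hv (hinj h)
    rcases le_total (f u) (f v) with huv | huv
    · refine hrun (f v - f u) u v (by omega) hu hv ?_
      by_cases h1 : f 0 < f u
      · exact Or.inl h1
      · right
        have : ¬ f 0 < f v := fun h2 => h1 (h.2 h2)
        omega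
    · refine (hrun (f u - f v) v u (by omega) hv hu ?_).symm
      by_cases h1 : f 0 < f v
      · exact Or.inl h1
      · right
        have : ¬ f 0 < f u := fun h2 => h1 (h.1 h2)
        omega
  have p12 : part 1 ≠ part 5 := by decide
  have p13 : part 1 ≠ part 9 := by decide
  have p23 : part 5 ≠ part 9 := by decide
  by_cases a1 : f 0 < f 1 <;> by_cases a2 : f 0 < f 5 <;> by_cases a3 : f 0 < f 9
  all_goals first
    | exact p12 (hside 1 5 (by decide) (by decide) (by tauto))
    | exact p13 (hside 1 9 (by decide) (by decide) (by tauto))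
    | exact p23 (hside 5 9 (by decide) (by decide) (by tauto))

/-! ### the product with a triangle -/

/-- the complete graph on three vertices -/
abbrev K : SimpleGraph (Fin 3) := ⊤

theorem connK : K.Connected := connected_top

/-- the distance of the triangle -/
def dK (a b : Fin 3) : ℕ := if a = b then 0 else 1

theorem dist_K (a b : Fin 3) : K.dist a b = dK a b := by
  unfold dK
  by_cases h : a = b
  · subst h; simp
  · rw [if_neg h]
    exact dist_eq_one_iff_adj.2 (by simpa using h)

theorem dist_prod (x y : Fin 13 × Fin 3) :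
    (G □ K).dist x y = dG x.1 y.1 + dK x.2 y.2 := by
  have h := edist_boxProd (G := G) (H := K) x y
  have h1 : G.edist x.1 y.1 = (G.dist x.1 y.1 : ℕ) :=
    ((conn.preconnected x.1 y.1).coe_dist_eq_edist).symm
  have h2 : K.edist x.2 y.2 = (K.dist x.2 y.2 : ℕ) :=
    ((connK.preconnected x.2 y.2).coe_dist_eq_edist).symm
  have h3 : (G □ K).edist x y = ((G □ K).dist x y : ℕ) :=
    (((conn.boxProd connK).preconnected x y).coe_dist_eq_edist).symm
  rw [h1, h2, h3, dist_G, dist_K] at h
  exact_mod_cast h

theorem diam_prod : (G □ K).diam ≤ 3 := by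
  obtain ⟨x, y, h⟩ := (G □ K).exists_dist_eq_diam
  rw [← h, dist_prod]
  have h1 : ∀ u v : Fin 13, dG u v ≤ 2 := by decide +kernel
  have h2 : ∀ a b : Fin 3, dK a b ≤ 1 := by decide +kernel
  have := h1 x.1 y.1
  have := h2 x.2 y.2
  omega

/-- the labels of the product -/
def tbl : List ℕ := [0, 13, 26, 6, 10, 2, 9, 1, 5, 3, 7, 11, 12, 4, 8, 15, 19, 23, 18, 22, 14, 24, 16, 20, 21, 25, 17, 36, 28, 32, 27, 31, 35, 33, 37, 29, 30, 34, 38]

/-- the labeling of the product -/
def lab (x : Fin 13 × Fin 3) : ℕ := tbl.getD (3 * x.1.val + x.2.val) 0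

theorem lab_spec : ∀ u v : Fin 13, ∀ a b : Fin 3, (u = v ∧ a = b) ∨
    4 ≤ dG u v + dK a b + ((lab (u, a) - lab (v, b)) + (lab (v, b) - lab (u, a))) := by
  decide +kernel

theorem lab_lt : ∀ u : Fin 13, ∀ a : Fin 3, lab (u, a) < 39 := by decide +kernel

theorem lab_surj : ∀ k : Fin 39, ∃ u : Fin 13, ∃ a : Fin 3, lab (u, a) = k.val := by
  decide +kernel

theorem radioGraceful_prod : RadioGraceful (G □ K) := by
  refine ⟨lab, ?_, ?_⟩
  · rintro ⟨u, a⟩ ⟨v, b⟩ hne
    have h := lab_spec u v a b
    rcases h with ⟨rfl, rfl⟩ | h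
    · exact absurd rfl hne
    have hd := diam_prod
    rw [dist_prod]
    have habs : ∀ m n : ℕ, |(m : ℤ) - (n : ℤ)| = (((m - n) + (n - m) : ℕ) : ℤ) := by
      intro m n
      rcases le_total m n with hle | hle
      · have hle' : (m : ℤ) ≤ n := by exact_mod_cast hle
        rw [Nat.sub_eq_zero_of_le hle, abs_of_nonpos (by linarith)]
        push_cast [Nat.cast_sub hle]; ring
      · have hle' : (n : ℤ) ≤ m := by exact_mod_cast hle
        rw [Nat.sub_eq_zero_of_le hle, abs_of_nonneg (by linarith)]
        push_cast [Nat.cast_sub hle]; ring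
    rw [habs]
    have h' : (4 : ℤ) ≤ (dG u v : ℤ) + (dK a b : ℤ) +
      (((lab (u, a) - lab (v, b)) + (lab (v, b) - lab (u, a)) : ℕ) : ℤ) := by exact_mod_cast h
    have hd' : ((G □ K).diam : ℤ) ≤ 3 := by exact_mod_cast hd
    simp only [Nat.cast_add] at h' ⊢
    linarith
  · have hcard : Nat.card (Fin 13 × Fin 3) = 39 := by simp
    rw [hcard]
    ext k
    constructor
    · rintro ⟨⟨u, a⟩, rfl⟩
      exact lab_lt u a
    · intro hk
      obtain ⟨u, a, h⟩ := lab_surj ⟨k, hk⟩
      exact ⟨(u, a), h⟩

/-- It is false that both factors of a radio graceful Cartesian product of finite connected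
graphs are radio graceful.  Moreover there is a counterexample in which the first factor has
diameter `2` and the second factor is the triangle. -/
theorem result :
    (¬ ∀ (V W : Type) [Finite V] [Finite W] (G : SimpleGraph V) (H : SimpleGraph W),
      G.Connected → H.Connected → RadioGraceful (G □ H) →
        RadioGraceful G ∧ RadioGraceful H) ∧
    ∃ G : SimpleGraph (Fin 13), G.Connected ∧ G.diam = 2 ∧
      RadioGraceful (G □ (⊤ : SimpleGraph (Fin 3))) ∧ ¬ RadioGraceful G := by
  refine ⟨fun h => ?_, G, conn, diam_G, radioGraceful_prod, not_radioGraceful_G⟩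
  exact not_radioGraceful_G
    (h (Fin 13) (Fin 3) G K conn connK radioGraceful_prod).1

end Pool.Agent.Results.MP_ce2a64_co.FactorNotRadioGraceful
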